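import Pool.Agent.Helper3.CL.Defs

/-! B7 (project CL, cyclic algebras of prime degree): eigenvalues at the archimedean places. -/

set_option autoImplicit false

namespace Pool.Agent.Helper16.CL

open Pool.Agent.Helper3.CL

variable {ι : Type*} [Fintype ι] [DecidableEq ι]

/-- the weighted norm -/
noncomputable def wn (l : ℕ) (α β : ℝ) (x y : Matrix ι ι ℂ) (g : ι → ℂ) : ℝ :=
  ∑ i ∈ Finset.range l, ∑ j ∈ Finset.range l,
    (α⁻¹) ^ i * (β⁻¹) ^ j * ‖(x ^ i * y ^ j).mulVec g‖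

theorem wn_nonneg {l : ℕ} {α β : ℝ} (hα : 0 ≤ α) (hβ : 0 ≤ β) (x y : Matrix ι ι ℂ)
    (g : ι → ℂ) : 0 ≤ wn l α β x y g := by
  unfold wn
  exact Finset.sum_nonneg fun i _ => Finset.sum_nonneg fun j _ => by positivity

theorem wn_smul (l : ℕ) (α β : ℝ) (x y : Matrix ι ι ℂ) (c : ℂ) (g : ι → ℂ) :
    wn l α β x y (c • g) = ‖c‖ * wn l α β x y g := by
  unfold wn
  simp_rw [Finset.mul_sum]
  refine Finset.sum_congr rfl fun i _ => Finset.sum_congr rfl fun j _ => ?_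
  rw [Matrix.mulVec_smul, norm_smul]
  ring

theorem wn_zero (l : ℕ) (α β : ℝ) (x y : Matrix ι ι ℂ) : wn l α β x y 0 = 0 := by
  unfold wn
  simp

theorem wn_add {l : ℕ} {α β : ℝ} (hα : 0 ≤ α) (hβ : 0 ≤ β) (x y : Matrix ι ι ℂ)
    (g g' : ι → ℂ) : wn l α β x y (g + g') ≤ wn l α β x y g + wn l α β x y g' := by
  unfold wn
  simp_rw [← Finset.sum_add_distrib]
  refine Finset.sum_le_sum fun i _ => Finset.sum_le_sum fun j _ => ?_
  rw [Matrix.mulVec_add, ← mul_add]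
  exact mul_le_mul_of_nonneg_left (norm_add_le _ _) (by positivity)

theorem wn_sum {l : ℕ} {α β : ℝ} (hα : 0 ≤ α) (hβ : 0 ≤ β) (x y : Matrix ι ι ℂ)
    {κ : Type*} (s : Finset κ) (g : κ → ι → ℂ) :
    wn l α β x y (∑ k ∈ s, g k) ≤ ∑ k ∈ s, wn l α β x y (g k) := by
  classical
  induction s using Finset.induction_on with
  | empty => simp [wn_zero]
  | insert a s ha ih =>
    rw [Finset.sum_insert ha, Finset.sum_insert ha]
    exact (wn_add hα hβ x y _ _).trans (by gcongr)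

theorem norm_le_wn {l : ℕ} (hl : 0 < l) {α β : ℝ} (hα : 0 ≤ α) (hβ : 0 ≤ β)
    (x y : Matrix ι ι ℂ) (g : ι → ℂ) : ‖g‖ ≤ wn l α β x y g := by
  unfold wn
  have h1 : ‖g‖ = (α⁻¹) ^ 0 * (β⁻¹) ^ 0 * ‖(x ^ 0 * y ^ 0).mulVec g‖ := by simp
  rw [h1]
  calc (α⁻¹) ^ 0 * (β⁻¹) ^ 0 * ‖(x ^ 0 * y ^ 0).mulVec g‖
      ≤ ∑ j ∈ Finset.range l, (α⁻¹) ^ 0 * (β⁻¹) ^ j * ‖(x ^ 0 * y ^ j).mulVec g‖ :=
        Finset.single_le_sum (f := fun j => (α⁻¹) ^ 0 * (β⁻¹) ^ j *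
          ‖(x ^ 0 * y ^ j).mulVec g‖) (fun j _ => by positivity) (Finset.mem_range.mpr hl)
    _ ≤ _ := Finset.single_le_sum (f := fun i => ∑ j ∈ Finset.range l, (α⁻¹) ^ i *
          (β⁻¹) ^ j * ‖(x ^ i * y ^ j).mulVec g‖)
          (fun i _ => Finset.sum_nonneg fun j _ => by positivity) (Finset.mem_range.mpr hl)

theorem sum_range_shift {l : ℕ} (F : ℕ → ℝ) (h : F l = F 0) :
    ∑ i ∈ Finset.range l, F (i + 1) = ∑ i ∈ Finset.range l, F i := by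
  have h1 := Finset.sum_range_succ F l
  have h2 := Finset.sum_range_succ' F l
  rw [h1, h] at h2
  exact (add_right_cancel h2).symm

theorem rt_pow {l : ℕ} (hl : 0 < l) (r : ℝ) (hr : 0 ≤ r) : (r ^ (1 / (l : ℝ))) ^ l = r := by
  rw [← Real.rpow_natCast, ← Real.rpow_mul hr]
  have : (l : ℝ) ≠ 0 := by exact_mod_cast hl.ne'
  rw [one_div, inv_mul_cancel₀ this, Real.rpow_one]

theorem pow_mul_x {l : ℕ} {ζ a b : ℂ} (hζ : ζ ≠ 0) {x y : Matrix ι ι ℂ}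
    (h : Weyl l ζ a b x y) (j : ℕ) : y ^ j * x = (ζ⁻¹) ^ j • (x * y ^ j) := by
  have h1 : y * x = ζ⁻¹ • (x * y) := by
    rw [h.comm, smul_smul, inv_mul_cancel₀ hζ, one_smul]
  induction j with
  | zero => simp
  | succ j ih =>
    rw [pow_succ y, mul_assoc, h1, mul_smul_comm, ← mul_assoc, ih, smul_mul_assoc, smul_smul,
      ← pow_succ', mul_assoc]

theorem wn_x {l : ℕ} (hl : 0 < l) {ζ a b : ℂ} (hζ1 : ‖ζ‖ = 1) (ha : a ≠ 0)
    {x y : Matrix ι ι ℂ} (h : Weyl l ζ a b x y) (β : ℝ) (g : ι → ℂ) :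
    wn l (‖a‖ ^ (1 / (l : ℝ))) β x y (x.mulVec g) =
      ‖a‖ ^ (1 / (l : ℝ)) * wn l (‖a‖ ^ (1 / (l : ℝ))) β x y g := by
  set α : ℝ := ‖a‖ ^ (1 / (l : ℝ)) with hα
  have hα0 : 0 < α := Real.rpow_pos_of_pos (norm_pos_iff.mpr ha) _
  have hαl : α ^ l = ‖a‖ := rt_pow hl _ (norm_nonneg _)
  have hζ0 : ζ ≠ 0 := by
    intro h0
    rw [h0, norm_zero] at hζ1
    exact zero_ne_one hζ1
  have key : ∀ i j : ℕ, ‖(x ^ i * y ^ j).mulVec (x.mulVec g)‖ =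
      ‖(x ^ (i + 1) * y ^ j).mulVec g‖ := by
    intro i j
    rw [Matrix.mulVec_mulVec, mul_assoc, pow_mul_x hζ0 h, mul_smul_comm, ← mul_assoc, ← pow_succ,
      Matrix.smul_mulVec, norm_smul, norm_pow, norm_inv, hζ1, inv_one, one_pow, one_mul]
  unfold wn
  rw [Finset.sum_comm]
  conv_rhs => rw [Finset.sum_comm]
  rw [Finset.mul_sum]
  refine Finset.sum_congr rfl fun j _ => ?_
  have hF := sum_range_shift (l := l)
    (fun i => (α⁻¹) ^ i * (β⁻¹) ^ j * ‖(x ^ i * y ^ j).mulVec g‖) (by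
      change (α⁻¹) ^ l * (β⁻¹) ^ j * ‖(x ^ l * y ^ j).mulVec g‖ =
        (α⁻¹) ^ 0 * (β⁻¹) ^ j * ‖(x ^ 0 * y ^ j).mulVec g‖
      rw [h.xpow, ← Algebra.smul_def, Matrix.smul_mulVec, norm_smul, ← hαl, inv_pow, pow_zero,
        pow_zero, one_mul, one_mul]
      have : α ^ l ≠ 0 := pow_ne_zero _ hα0.ne'
      field_simp)
  rw [← hF, Finset.mul_sum]
  refine Finset.sum_congr rfl fun i _ => ?_
  rw [key, pow_succ (α⁻¹) i]
  field_simp

theorem wn_y {l : ℕ} (hl : 0 < l) {ζ a b : ℂ} (hb : b ≠ 0)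
    {x y : Matrix ι ι ℂ} (h : Weyl l ζ a b x y) (α : ℝ) (g : ι → ℂ) :
    wn l α (‖b‖ ^ (1 / (l : ℝ))) x y (y.mulVec g) =
      ‖b‖ ^ (1 / (l : ℝ)) * wn l α (‖b‖ ^ (1 / (l : ℝ))) x y g := by
  set β : ℝ := ‖b‖ ^ (1 / (l : ℝ)) with hβ
  have hβ0 : 0 < β := Real.rpow_pos_of_pos (norm_pos_iff.mpr hb) _
  have hβl : β ^ l = ‖b‖ := rt_pow hl _ (norm_nonneg _)
  have key : ∀ i j : ℕ, ‖(x ^ i * y ^ j).mulVec (y.mulVec g)‖ =
      ‖(x ^ i * y ^ (j + 1)).mulVec g‖ := by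
    intro i j
    rw [Matrix.mulVec_mulVec, mul_assoc, ← pow_succ]
  unfold wn
  rw [Finset.mul_sum]
  refine Finset.sum_congr rfl fun i _ => ?_
  have hF := sum_range_shift (l := l)
    (fun j => (α⁻¹) ^ i * (β⁻¹) ^ j * ‖(x ^ i * y ^ j).mulVec g‖) (by
      change (α⁻¹) ^ i * (β⁻¹) ^ l * ‖(x ^ i * y ^ l).mulVec g‖ =
        (α⁻¹) ^ i * (β⁻¹) ^ 0 * ‖(x ^ i * y ^ 0).mulVec g‖
      rw [h.ypow, ← Algebra.commutes, ← Algebra.smul_def, Matrix.smul_mulVec, norm_smul, ← hβl,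
        inv_pow β, pow_zero, pow_zero, mul_one, mul_one]
      have : β ^ l ≠ 0 := pow_ne_zero _ hβ0.ne'
      field_simp)
  rw [← hF, Finset.mul_sum]
  refine Finset.sum_congr rfl fun j _ => ?_
  rw [key, pow_succ (β⁻¹) j]
  field_simp

/-- B7: eigenvalues at the archimedean places. -/
theorem arch {ι : Type*} [Fintype ι] [DecidableEq ι] {l : ℕ} (hl : 0 < l) {ζ a b : ℂ}
    (hζ : IsPrimitiveRoot ζ l) (ha : a ≠ 0) (hb : b ≠ 0) {x y : Matrix ι ι ℂ}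
    (h : Weyl l ζ a b x y) (c : Fin l → Fin l → ℂ) {lam : ℂ} {f : ι → ℂ} (hf : f ≠ 0)
    (hlam : (elt c x y).mulVec f = lam • f) :
    ‖lam‖ ≤ ∑ i : Fin l, ∑ j : Fin l,
      ‖c i j‖ * (‖a‖ ^ (1 / (l : ℝ))) ^ (i : ℕ) * (‖b‖ ^ (1 / (l : ℝ))) ^ (j : ℕ) := by
  set α : ℝ := ‖a‖ ^ (1 / (l : ℝ)) with hα
  set β : ℝ := ‖b‖ ^ (1 / (l : ℝ)) with hβ
  have hα0 : 0 ≤ α := Real.rpow_nonneg (norm_nonneg _) _
  have hβ0 : 0 ≤ β := Real.rpow_nonneg (norm_nonneg _) _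
  have hζ1 : ‖ζ‖ = 1 := Complex.norm_eq_one_of_pow_eq_one hζ.pow_eq_one hl.ne'
  have hx : ∀ (i : ℕ) (g : ι → ℂ), wn l α β x y ((x ^ i).mulVec g) = α ^ i * wn l α β x y g := by
    intro i
    induction i with
    | zero => intro g; simp
    | succ i ih =>
      intro g
      rw [pow_succ, ← Matrix.mulVec_mulVec, ih, wn_x hl hζ1 ha h β g, pow_succ, mul_assoc]
  have hy : ∀ (j : ℕ) (g : ι → ℂ), wn l α β x y ((y ^ j).mulVec g) = β ^ j * wn l α β x y g := by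
    intro j
    induction j with
    | zero => intro g; simp
    | succ j ih =>
      intro g
      rw [pow_succ, ← Matrix.mulVec_mulVec, ih, wn_y hl hb h α g, pow_succ, mul_assoc]
  have hN : 0 < wn l α β x y f :=
    lt_of_lt_of_le (norm_pos_iff.mpr hf) (norm_le_wn hl hα0 hβ0 x y f)
  have h1 : ‖lam‖ * wn l α β x y f ≤ (∑ i : Fin l, ∑ j : Fin l,
      ‖c i j‖ * α ^ (i : ℕ) * β ^ (j : ℕ)) * wn l α β x y f := by
    rw [← wn_smul, ← hlam]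
    have h2 : (elt c x y).mulVec f =
        ∑ i : Fin l, ∑ j : Fin l, c i j • (x ^ (i : ℕ) * y ^ (j : ℕ)).mulVec f := by
      unfold elt
      rw [Matrix.sum_mulVec]
      refine Finset.sum_congr rfl fun i _ => ?_
      rw [Matrix.sum_mulVec]
      refine Finset.sum_congr rfl fun j _ => ?_
      rw [Matrix.smul_mulVec]
    rw [h2, Finset.sum_mul]
    refine (wn_sum hα0 hβ0 x y _ _).trans (Finset.sum_le_sum fun i _ => ?_)
    rw [Finset.sum_mul]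
    refine (wn_sum hα0 hβ0 x y _ _).trans (Finset.sum_le_sum fun j _ => ?_)
    rw [wn_smul, ← Matrix.mulVec_mulVec, hx, hy]
    apply le_of_eq
    ring
  exact le_of_mul_le_mul_right h1 hN

end Pool.Agent.Helper16.CL
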