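import Pool.Agent.Helper16.CL.GlobSub
import Pool.Agent.Helper8.CL.LocSub

/-! B4 (project CL): the global subgroup. -/

set_option autoImplicit false

namespace Pool.Agent.Helper16.CL

open NumberField Pool.Agent.Helper3.CL IsDedekindDomain

/-- B4: the global subgroup (intersection of the local ones over the primes dividing `a b`;
`G = ⊤` at the others). -/
theorem glob_sub {L : Type} [Field L] [NumberField L] {l : ℕ} (hl : l.Prime) {ζ : L}
    (hζ : IsPrimitiveRoot ζ l) {a b : 𝓞 L} (ha : a ≠ 0) (hb : b ≠ 0)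
    (h : ∀ q : Ideal (𝓞 L), q.IsPrime → q ≠ ⊥ → a * b ∈ q →
      Pool.Agent.Helper3.CL.LC l q a b) :
    ∃ G : AddSubgroup (Fin l → Fin l → 𝓞 L), G.index ≠ 0 ∧
      G.index ≤ Ideal.absNorm (Ideal.span {a * b}) ^ (l * (l - 1) / 2) ∧
      ∀ c ∈ G, ∀ (A : Type) [Ring A] [Algebra L A] (x y : A),
        Weyl l ζ (a : L)⁻¹ (b : L)⁻¹ x y → ∀ v : HeightOneSpectrum (𝓞 L),
          Pool.Agent.Helper3.CL.IntAt v (elt (fun i j => (c i j : L)) x y) :=
  glob_sub_of ha hb (fun _ _ _ v t => Pool.Agent.Helper3.CL.IntAt v t)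
    (fun v hv => Pool.Agent.Helper8.CL.loc_sub hl hζ v hv) h

end Pool.Agent.Helper16.CL
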