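import Pool.Agent.Helper16.CB.Val
import Pool.Agent.Helper3.CL.Defs

/-! B4 and B9 (project CL): the global subgroup, from the local ones. -/

set_option autoImplicit false

namespace Pool.Agent.Helper16.CL

open NumberField Pool.Agent.Helper16.CB Pool.Agent.Helper3.CL IsDedekindDomain
  UniqueFactorizationMonoid

/-- B9b -/
theorem lc_of_notMem {R : Type*} [CommRing R] {l : ℕ} {q : Ideal R} {a b : R} (ha : a ∉ q)
    (hb : b ∉ q) : Pool.Agent.Helper3.CL.LC l q a b :=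
  ⟨0, 0, 1, val_zero_iff.2 ha, val_zero_iff.2 hb, by simp⟩

theorem prod_mem_pow {R : Type*} [CommRing R] {q : Ideal R} {x y : R} {m n k : ℕ}
    (hx : x ∈ q ^ m) (hy : y ∈ q ^ n) (h : k = m + n) : x * y ∈ q ^ k :=
  mul_mem_pow hx hy h.le

theorem pow_mem_pow {R : Type*} [CommRing R] {q : Ideal R} {x : R} {m k t : ℕ}
    (hx : x ∈ q ^ m) (h : k = m * t) : x ^ t ∈ q ^ k := by
  rw [h, pow_mul]
  exact Ideal.pow_mem_pow hx t

/-- B9a: `LC` does not see `l`-th powers. -/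
theorem lc_mul {R : Type*} [CommRing R] [IsDedekindDomain R] {l : ℕ} (hl : 0 < l) {q : Ideal R}
    (hq : q.IsPrime) (hq0 : q ≠ ⊥) {a b η θ : R} (hη : η ≠ 0) (hθ : θ ≠ 0)
    (h : Pool.Agent.Helper3.CL.LC l q a b) :
    Pool.Agent.Helper3.CL.LC l q (a * η ^ l) (b * θ ^ l) := by
  obtain ⟨α, β, g, ha, hb, hg⟩ := h
  obtain ⟨m, hm⟩ := exists_val hq hη
  obtain ⟨n, hn⟩ := exists_val hq hθ
  obtain ⟨k, rfl⟩ : ∃ k, l = k + 1 := ⟨l - 1, by omega⟩
  have ha' := ha.mul hq hq0 (hm.pow hq hq0 (k + 1))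
  have hb' := hb.mul hq hq0 (hn.pow hq hq0 (k + 1))
  simp only [add_tsub_cancel_right] at hg ⊢
  set α' : ℕ := α + (k + 1) * m with hα'
  set β' : ℕ := β + (k + 1) * n with hβ'
  refine ⟨α', β', (-1) ^ (α * n + m * β + (k + 1) * (m * n)) *
    (a ^ n * b ^ (k * m) * η ^ β' * θ ^ (k * α')) * g, ha', hb', ?_⟩
  have key : (-1 : R) ^ (α' * β') * (a * η ^ (k + 1)) ^ β' * (b * θ ^ (k + 1)) ^ (k * α') -
      ((-1) ^ (α * n + m * β + (k + 1) * (m * n)) *
        (a ^ n * b ^ (k * m) * η ^ β' * θ ^ (k * α')) * g) ^ (k + 1) =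
      ((-1) ^ (α * n + m * β + (k + 1) * (m * n))) ^ (k + 1) *
        ((a ^ n * b ^ (k * m) * η ^ β' * θ ^ (k * α')) ^ (k + 1) *
        ((-1) ^ (α * β) * a ^ β * b ^ (k * α) - g ^ (k + 1))) := by
    have e1 : (-1 : R) ^ (α' * β') = ((-1) ^ (α * n + m * β + (k + 1) * (m * n))) ^ (k + 1) *
        (-1) ^ (α * β) := by
      rw [← pow_mul, ← pow_add]
      congr 1
      rw [hα', hβ']
      ring
    have e2 : (a * η ^ (k + 1)) ^ β' = a ^ β * (a ^ n * η ^ β') ^ (k + 1) := by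
      rw [mul_pow, mul_pow, ← pow_mul, ← pow_mul, ← pow_mul, ← mul_assoc, ← pow_add]
      congr 2
      · rw [hβ']
        ring
      · ring
    have e3 : (b * θ ^ (k + 1)) ^ (k * α') = b ^ (k * α) *
        (b ^ (k * m) * θ ^ (k * α')) ^ (k + 1) := by
      have e4 : b ^ (k * α') = b ^ (k * α) * b ^ (k * m * (k + 1)) := by
        rw [← pow_add]
        congr 1
        rw [hα']
        ring
      rw [mul_pow, mul_pow, ← pow_mul, ← pow_mul, ← pow_mul, e4, mul_assoc]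
      congr 3
      ring
    rw [e1, e2, e3]
    simp only [mul_pow]
    ring
  rw [add_tsub_cancel_right, key]
  apply Ideal.mul_mem_left
  have hu : a ^ n * b ^ (k * m) * η ^ β' * θ ^ (k * α') ∈
      q ^ (α * n + β * (k * m) + m * β' + n * (k * α')) := by
    refine prod_mem_pow (prod_mem_pow (prod_mem_pow (pow_mem_pow ha.1 rfl)
      (pow_mem_pow hb.1 rfl) rfl) (pow_mem_pow hm.1 rfl) rfl) (pow_mem_pow hn.1 rfl) rfl
  refine prod_mem_pow (pow_mem_pow hu rfl) hg ?_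
  rw [hα', hβ']
  ring

/-- the conclusion of B3 at the prime `v` -/
def LocSub {L : Type} [Field L] [NumberField L] (l : ℕ) (ζ : L) (a b : 𝓞 L)
    (P : ∀ (A : Type) [Ring A] [Algebra L A], HeightOneSpectrum (𝓞 L) → A → Prop)
    (v : HeightOneSpectrum (𝓞 L)) : Prop :=
  ∃ (α β : ℕ) (G : AddSubgroup (Fin l → Fin l → 𝓞 L)), Val v.asIdeal a α ∧
    Val v.asIdeal b β ∧ G.index ≠ 0 ∧
    G.index ≤ Ideal.absNorm v.asIdeal ^ ((α + β) * (l * (l - 1) / 2)) ∧
    ∀ c ∈ G, ∀ (A : Type) [Ring A] [Algebra L A] (x y : A),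
      Weyl l ζ (a : L)⁻¹ (b : L)⁻¹ x y → P A v (elt (fun i j => (c i j : L)) x y)

theorem glob_sub_of {L : Type} [Field L] [NumberField L] {l : ℕ} {ζ : L}
    {a b : 𝓞 L} (ha : a ≠ 0) (hb : b ≠ 0)
    (P : ∀ (A : Type) [Ring A] [Algebra L A], HeightOneSpectrum (𝓞 L) → A → Prop)
    (loc : ∀ v : HeightOneSpectrum (𝓞 L), Pool.Agent.Helper3.CL.LC l v.asIdeal a b →
      LocSub l ζ a b P v)
    (h : ∀ q : Ideal (𝓞 L), q.IsPrime → q ≠ ⊥ → a * b ∈ q → Pool.Agent.Helper3.CL.LC l q a b) :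
    ∃ G : AddSubgroup (Fin l → Fin l → 𝓞 L), G.index ≠ 0 ∧
      G.index ≤ Ideal.absNorm (Ideal.span {a * b}) ^ (l * (l - 1) / 2) ∧
      ∀ c ∈ G, ∀ (A : Type) [Ring A] [Algebra L A] (x y : A),
        Weyl l ζ (a : L)⁻¹ (b : L)⁻¹ x y → ∀ v : HeightOneSpectrum (𝓞 L),
          P A v (elt (fun i j => (c i j : L)) x y) := by
  classical
  have hab : a * b ≠ 0 := mul_ne_zero ha hb
  set N : ℕ := l * (l - 1) / 2 with hN
  set I : Ideal (𝓞 L) := Ideal.span {a * b} with hI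
  have hI0 : I ≠ 0 := by
    rw [hI, Ne, Ideal.zero_eq_bot, Ideal.span_singleton_eq_bot]
    exact hab
  set s : Finset (Ideal (𝓞 L)) := (normalizedFactors I).toFinset with hs
  have hp : ∀ q ∈ s, Prime q := fun q hq =>
    prime_of_normalized_factor q (Multiset.mem_toFinset.1 hq)
  have hprod : ∏ q ∈ s, q ^ (normalizedFactors I).count q = I := by
    rw [hs, ← Finset.prod_multiset_count]
    exact associated_iff_eq.1 (prod_normalizedFactors hI0)
  have hex : ∀ q : s, ∃ G : AddSubgroup (Fin l → Fin l → 𝓞 L), G.index ≠ 0 ∧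
      G.index ≤ Ideal.absNorm (q : Ideal (𝓞 L)) ^
        ((normalizedFactors I).count (q : Ideal (𝓞 L)) * N) ∧
      ∀ v : HeightOneSpectrum (𝓞 L), v.asIdeal = (q : Ideal (𝓞 L)) → ∀ c ∈ G, ∀ (A : Type)
        [Ring A] [Algebra L A] (x y : A),
        Weyl l ζ (a : L)⁻¹ (b : L)⁻¹ x y → P A v (elt (fun i j => (c i j : L)) x y) := by
    rintro ⟨q, hq⟩
    have hqp := Ideal.isPrime_of_prime (hp q hq)
    have hq0 : q ≠ ⊥ := (hp q hq).ne_zero
    have hmem : a * b ∈ q := by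
      have h1 : q ∣ I := dvd_of_mem_normalizedFactors (Multiset.mem_toFinset.1 hq)
      exact (Ideal.dvd_span_singleton).1 h1
    obtain ⟨α, β, G, h1, h2, h3, h4, h5⟩ := loc ⟨q, hqp, hq0⟩ (h q hqp hq0 hmem)
    have h6 := (h1.mul hqp hq0 h2)
    rw [val_iff] at h6
    have h7 : (normalizedFactors I).count q = α + β := by
      have h8 := emultiplicity_eq_count_normalizedFactors (hp q hq).irreducible hI0
      rw [normalize_eq] at h8
      rw [← hI] at h6
      change emultiplicity q I = _ at h6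
      rw [h6] at h8
      exact_mod_cast h8.symm
    refine ⟨G, h3, ?_, ?_⟩
    · simp only
      rw [h7]
      exact h4
    · rintro ⟨v, hv1, hv2⟩ hv
      simp only at hv
      subst hv
      exact h5
  choose G hG1 hG2 hG3 using hex
  refine ⟨⨅ q, G q, ?_, ?_, ?_⟩
  · exact AddSubgroup.index_iInf_ne_zero hG1
  · refine (AddSubgroup.index_iInf_le _).trans ?_
    refine (Finset.prod_le_prod' fun q _ => hG2 q).trans ?_
    rw [Finset.prod_coe_sort s (fun q => Ideal.absNorm q ^ ((normalizedFactors I).count q * N))]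
    conv_rhs => rw [← hprod]
    rw [map_prod, ← Finset.prod_pow]
    simp only [map_pow, ← pow_mul]
    exact le_rfl
  · intro c hc A _ _ x y hxy v
    by_cases hv : a * b ∈ v.asIdeal
    · have hvs : v.asIdeal ∈ s := by
        rw [hs, Multiset.mem_toFinset, Ideal.mem_normalizedFactors_iff hI0]
        exact ⟨v.isPrime, (Ideal.span_singleton_le_iff_mem _).2 hv⟩
      exact hG3 ⟨v.asIdeal, hvs⟩ v rfl c ((AddSubgroup.mem_iInf.1 hc) ⟨v.asIdeal, hvs⟩) A x y hxy
    · have hav : a ∉ v.asIdeal := fun h1 => hv (Ideal.mul_mem_right _ _ h1)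
      have hbv : b ∉ v.asIdeal := fun h1 => hv (Ideal.mul_mem_left _ _ h1)
      obtain ⟨α, β, G', h1, h2, h3, h4, h5⟩ := loc v (lc_of_notMem hav hbv)
      have hα : α = 0 := h1.unique (val_zero_iff.2 hav)
      have hβ : β = 0 := h2.unique (val_zero_iff.2 hbv)
      subst hα hβ
      have h6 : G' = ⊤ := by
        rw [← AddSubgroup.index_eq_one]
        simp only [add_zero, zero_mul, pow_zero] at h4
        omega
      subst h6
      exact h5 c (AddSubgroup.mem_top c) A x y hxy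

end Pool.Agent.Helper16.CL
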