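import Pool.Agent.Helper3.CL.Defs

/-! B2 (project CL, cyclic algebras of prime degree): a local order is integral. -/

set_option autoImplicit false

namespace Pool.Agent.Helper16.CL

/-- B2: the order generated by `g = Y (w - 1)`, `z = Y⁻¹` and `w` where `w Y = ζ Y w`: it is
spanned by the `g ^ s w ^ r` and the `z ^ s w ^ r` with `s, r < l`. -/
theorem ord_integral {R A : Type*} [CommRing R] [Ring A] [Algebra R A] {l : ℕ} (hl : 0 < l)
    {ζ ζ' : R} (hζ : ζ * ζ' = 1) {g z w : A} (hwg : w * g = ζ • (g * w))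
    (hzw : z * w = ζ • (w * z)) (hzg : z * g = w - 1) (hgz : g * z = ζ' • w - 1) {r₁ r₂ r₃ : R}
    (hw : w ^ l = algebraMap R A r₁) (hg : g ^ l = algebraMap R A r₂)
    (hz : z ^ l = algebraMap R A r₃) {t : A} (ht : t ∈ Algebra.adjoin R {g, z, w}) :
    IsIntegral R t := by
  classical
  set T : Set A := Set.range (fun p : Fin l × Fin l => g ^ (p.1 : ℕ) * w ^ (p.2 : ℕ)) ∪
    Set.range (fun p : Fin l × Fin l => z ^ (p.1 : ℕ) * w ^ (p.2 : ℕ)) with hT
  set M : Submodule R A := Submodule.span R T with hM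
  have red : ∀ (u : A) (r : R), u ^ l = algebraMap R A r → ∀ n : ℕ,
      u ^ n = (r ^ (n / l)) • u ^ (n % l) := by
    intro u r hu n
    conv_lhs => rw [← Nat.div_add_mod n l, pow_add, pow_mul, hu, ← map_pow]
    rw [Algebra.smul_def]
  have mg : ∀ s r : ℕ, g ^ s * w ^ r ∈ M := by
    intro s r
    rw [red g r₂ hg s, red w r₁ hw r, smul_mul_smul_comm]
    apply Submodule.smul_mem
    apply Submodule.subset_span
    exact Or.inl ⟨(⟨s % l, Nat.mod_lt _ hl⟩, ⟨r % l, Nat.mod_lt _ hl⟩), rfl⟩
  have mz : ∀ s r : ℕ, z ^ s * w ^ r ∈ M := by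
    intro s r
    rw [red z r₃ hz s, red w r₁ hw r, smul_mul_smul_comm]
    apply Submodule.smul_mem
    apply Submodule.subset_span
    exact Or.inr ⟨(⟨s % l, Nat.mod_lt _ hl⟩, ⟨r % l, Nat.mod_lt _ hl⟩), rfl⟩
  have hζ' : ζ' * ζ = 1 := by rw [mul_comm]; exact hζ
  have hwz : w * z = ζ' • (z * w) := by
    rw [hzw, smul_smul, hζ', one_smul]
  have wg : ∀ s : ℕ, w * g ^ s = ζ ^ s • (g ^ s * w) := by
    intro s
    induction s with
    | zero => simp
    | succ s ih =>
      rw [pow_succ g, ← mul_assoc, ih, smul_mul_assoc, mul_assoc, hwg, mul_smul_comm, smul_smul,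
        ← pow_succ, mul_assoc]
  have wz : ∀ s : ℕ, w * z ^ s = ζ' ^ s • (z ^ s * w) := by
    intro s
    induction s with
    | zero => simp
    | succ s ih =>
      rw [pow_succ z, ← mul_assoc, ih, smul_mul_assoc, mul_assoc, hwz, mul_smul_comm, smul_smul,
        ← pow_succ, mul_assoc]
  have wM : ∀ m ∈ M, w * m ∈ M := by
    intro m hm
    induction hm using Submodule.span_induction with
    | mem x hx =>
      rcases hx with ⟨⟨i, j⟩, rfl⟩ | ⟨⟨i, j⟩, rfl⟩
      · change w * (g ^ (i : ℕ) * w ^ (j : ℕ)) ∈ M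
        rw [← mul_assoc, wg, smul_mul_assoc, mul_assoc, ← pow_succ']
        exact Submodule.smul_mem _ _ (mg _ _)
      · change w * (z ^ (i : ℕ) * w ^ (j : ℕ)) ∈ M
        rw [← mul_assoc, wz, smul_mul_assoc, mul_assoc, ← pow_succ']
        exact Submodule.smul_mem _ _ (mz _ _)
    | zero => rw [mul_zero]; exact M.zero_mem
    | add x y _ _ hx hy => rw [mul_add]; exact M.add_mem hx hy
    | smul c x _ hx => rw [mul_smul_comm]; exact M.smul_mem _ hx
  have gM : ∀ m ∈ M, g * m ∈ M := by
    intro m hm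
    induction hm using Submodule.span_induction with
    | mem x hx =>
      rcases hx with ⟨⟨i, j⟩, rfl⟩ | ⟨⟨i, j⟩, rfl⟩
      · change g * (g ^ (i : ℕ) * w ^ (j : ℕ)) ∈ M
        rw [← mul_assoc, ← pow_succ']
        exact mg _ _
      · change g * (z ^ (i : ℕ) * w ^ (j : ℕ)) ∈ M
        rcases Nat.eq_zero_or_pos (i : ℕ) with h0 | h0
        · rw [h0, pow_zero, one_mul]
          have := mg 1 j
          rwa [pow_one] at this
        · obtain ⟨k, hk⟩ := Nat.exists_eq_succ_of_ne_zero h0.ne'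
          rw [hk, Nat.succ_eq_add_one, pow_succ', mul_assoc, ← mul_assoc g, hgz, sub_mul, one_mul,
            smul_mul_assoc]
          exact M.sub_mem (M.smul_mem _ (wM _ (mz _ _))) (mz _ _)
    | zero => rw [mul_zero]; exact M.zero_mem
    | add x y _ _ hx hy => rw [mul_add]; exact M.add_mem hx hy
    | smul c x _ hx => rw [mul_smul_comm]; exact M.smul_mem _ hx
  have zM : ∀ m ∈ M, z * m ∈ M := by
    intro m hm
    induction hm using Submodule.span_induction with
    | mem x hx =>
      rcases hx with ⟨⟨i, j⟩, rfl⟩ | ⟨⟨i, j⟩, rfl⟩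
      · change z * (g ^ (i : ℕ) * w ^ (j : ℕ)) ∈ M
        rcases Nat.eq_zero_or_pos (i : ℕ) with h0 | h0
        · rw [h0, pow_zero, one_mul]
          have := mz 1 j
          rwa [pow_one] at this
        · obtain ⟨k, hk⟩ := Nat.exists_eq_succ_of_ne_zero h0.ne'
          rw [hk, Nat.succ_eq_add_one, pow_succ', mul_assoc, ← mul_assoc z, hzg, sub_mul, one_mul]
          exact M.sub_mem (wM _ (mg _ _)) (mg _ _)
      · change z * (z ^ (i : ℕ) * w ^ (j : ℕ)) ∈ M
        rw [← mul_assoc, ← pow_succ']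
        exact mz _ _
    | zero => rw [mul_zero]; exact M.zero_mem
    | add x y _ _ hx hy => rw [mul_add]; exact M.add_mem hx hy
    | smul c x _ hx => rw [mul_smul_comm]; exact M.smul_mem _ hx
  have one_mem : (1 : A) ∈ M := by
    have := mg 0 0
    rwa [pow_zero, pow_zero, mul_one] at this
  have stab : ∀ u ∈ Algebra.adjoin R {g, z, w}, ∀ m ∈ M, u * m ∈ M := by
    intro u hu
    induction hu using Algebra.adjoin_induction with
    | mem x hx =>
      rcases hx with rfl | rfl | hx
      · exact gM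
      · exact zM
      · rw [Set.mem_singleton_iff.mp hx]
        exact wM
    | algebraMap r =>
      intro m hm
      rw [← Algebra.smul_def]
      exact M.smul_mem _ hm
    | add x y _ _ hx hy =>
      intro m hm
      rw [add_mul]
      exact M.add_mem (hx m hm) (hy m hm)
    | mul x y _ _ hx hy =>
      intro m hm
      rw [mul_assoc]
      exact hx _ (hy m hm)
  have hsub : Subalgebra.toSubmodule (Algebra.adjoin R {g, z, w}) = M := by
    apply le_antisymm
    · intro u hu
      have := stab u hu 1 one_mem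
      rwa [mul_one] at this
    · rw [hM, Submodule.span_le]
      have g1 : g ∈ Algebra.adjoin R {g, z, w} := Algebra.subset_adjoin (by simp)
      have z1 : z ∈ Algebra.adjoin R {g, z, w} := Algebra.subset_adjoin (by simp)
      have w1 : w ∈ Algebra.adjoin R {g, z, w} := Algebra.subset_adjoin (by simp)
      rintro x (⟨⟨i, j⟩, rfl⟩ | ⟨⟨i, j⟩, rfl⟩)
      · exact Subalgebra.mul_mem _ (Subalgebra.pow_mem _ g1 _) (Subalgebra.pow_mem _ w1 _)
      · exact Subalgebra.mul_mem _ (Subalgebra.pow_mem _ z1 _) (Subalgebra.pow_mem _ w1 _)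
  refine IsIntegral.of_mem_of_fg (Algebra.adjoin R {g, z, w}) ?_ t ht
  rw [hsub]
  exact Submodule.fg_span ((Set.finite_range _).union (Set.finite_range _))

end Pool.Agent.Helper16.CL
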